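import Pool.Agent.H.MP_d93d44_co.A

namespace Pool.Agent.H.MP_3865e9_co.A

open Matrix Finset Pool.Agent.H.MP_d93d44_co.A

def big : ℕ := 0xdec0000000000000000c000002f7000000000000000030000007bc0000000000000000c000003de00000000000000003000000ef40000000000000000c0000037b00000000000000003000000bdc0000000000000000c000001ef00000000000000003000000f780000000000000000c000003bd000000000000000030dec0000000000000000000000ef7000000000000000000000037bc0000000000000000000000fde00000000000000000000003ef40000000000000000000000f7b00000000000000000000003bdc0000000000000000000000def00000000000000000000003f780000000000000000000000fbd000000000000000000000030037b00000000000000000003000bdc0000000000000000000c001ef00000000000000000003000f780000000000000000000c003bd00000000000000000003000dec0000000000000000000c002f7000000000000000000030007bc0000000000000000000c003de00000000000000000003000ef400000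00000000000000c000000000000888800000000480000000000044440000000012000000000002222000000000480000000000011110000000012000000000000888800000000480000000000044440000000012000000000002222000000000480000000000011110000000012000000000000888800000000480000000000044440000000012000000000002222000000000480000000000011110000000012000000000000888800000000480000000000044440000000012000000000002222000000000480000000000011110000000012000000000000000088880000240000000000000004444000009000000000000000222200000240000000000000001111000009000000000000000088880000240000000000000004444000009000000000000000222200000240000000000000001111000009000000000000000088880000240000000000000004444000009000000000000000222200000240000000000000001111000009000000000000000088880000240000000000000004444000009000000000000000222200000240000000000000001111000009000000008888000000000000900000000444400000000000024000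000022220000000000000900000000111100000000000024000000008888000000000000900000000444400000000000024000000022220000000000000900000000111100000000000024000000008888000000000000900000000444400000000000024000000022220000000000000900000000111100000000000024000000008888000000000000900000000444400000001000024000000022220000000100000900000000111100000002000024000000000000000000000000a8000000000000000000000002a000000000000000000000000a8000000000000000000000002a000000000000000000000000a8000000000000000000000002a000000000000000000000000a8000000000000000000000002a000000000000000000000000a8000000000000000000000002a000000000000000000000000a8000000000000000000000002a000000000000000000000000a8000000000000000000000002a000000000000000000000000a8000000000000000000000002a000000000000000000000000a8000000000000000000000002a00000ffffffc0000000000000000ffc000000ffff0000ffffc0003ff00000000003fffc000003ff00000ffff00000000ffffc0ffc000000003fffc000000000000003ff00000000ffffffffc0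

def cn : ℕ := 0xccccccccccbbbbbbbbbbaaaaaaaaaa999999999999999988888888888888887777777777777777666666666666666666543210

def cl (v : Fin 102) : Fin 13 := ⟨(cn >>> (4 * v.1)) % 16 % 13, Nat.mod_lt _ (by norm_num)⟩

def arc (u v : Fin 102) : Bool := big.testBit (102 * u.1 + v.1)

def Z (u v : Fin 102) : ℤ := if arc u v = true then 1 else if arc v u = true then -1 else 0

theorem asym : ∀ u v, arc u v = true → ¬ arc v u = true := by decide +kernel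

def Q : Fin 13 → Fin 13 → ℤ :=
  ![![0, 0, 0, 0, 0, 0, 18, 16, -16, 0, 10, -10, 0],
    ![0, 0, 0, 0, 0, 0, -18, 0, 16, -16, 0, -10, 10],
    ![0, 0, 0, 0, 0, 0, 18, -16, 0, 16, -10, 0, 10],
    ![0, 0, 0, 0, 0, 0, -18, 16, -16, 0, -10, 10, 0],
    ![0, 0, 0, 0, 0, 0, 18, 0, 16, -16, 0, 10, -10],
    ![0, 0, 0, 0, 0, 0, -18, -16, 0, 16, 10, 0, -10],
    ![-1, 1, -1, 1, -1, 1, 0, 0, 0, 0, 0, 0, 0],
    ![-1, 0, 1, -1, 0, 1, 0, 0, -4, 4, 0, 0, 0],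
    ![1, -1, 0, 1, -1, 0, 0, 4, 0, -4, 0, 0, 0],
    ![0, 1, -1, 0, 1, -1, 0, -4, 4, 0, 0, 0, 0],
    ![-1, 0, 1, 1, 0, -1, 0, 0, 0, 0, 0, 8, -8],
    ![1, 1, 0, -1, -1, 0, 0, 0, 0, 0, -8, 0, 8],
    ![0, -1, -1, 0, 1, 1, 0, 0, 0, 0, 8, -8, 0]]

theorem cnt : ∀ (v : Fin 102) (k : Fin 13),
    ∑ u ∈ univ.filter (cl · = k), Z v u = Q (cl v) k := by decide +kernel

abbrev K := QuadraticAlgebra ℤ (-1) 1

def W : Fin 11 → Fin 13 → K :=
  ![![⟨1, 0⟩, ⟨1, 0⟩, ⟨1, 0⟩, ⟨1, 0⟩, ⟨1, 0⟩, ⟨1, 0⟩, ⟨0, 0⟩, ⟨0, 0⟩, ⟨0, 0⟩, ⟨0, 0⟩, ⟨0, 0⟩, ⟨0, 0⟩, ⟨0, 0⟩],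
    ![⟨10, 10⟩, ⟨-10, 20⟩, ⟨-20, 10⟩, ⟨-10, -10⟩, ⟨10, -20⟩, ⟨20, -10⟩, ⟨0, 0⟩, ⟨0, 0⟩, ⟨0, 0⟩, ⟨0, 0⟩, ⟨-2, 4⟩, ⟨4, -2⟩, ⟨-2, -2⟩],
    ![⟨10, 10⟩, ⟨-10, 20⟩, ⟨-20, 10⟩, ⟨-10, -10⟩, ⟨10, -20⟩, ⟨20, -10⟩, ⟨0, 0⟩, ⟨0, 0⟩, ⟨0, 0⟩, ⟨0, 0⟩, ⟨10, -20⟩, ⟨-20, 10⟩, ⟨10, 10⟩],
    ![⟨32, -16⟩, ⟨-16, 32⟩, ⟨-16, -16⟩, ⟨32, -16⟩, ⟨-16, 32⟩, ⟨-16, -16⟩, ⟨0, 0⟩, ⟨-4, 8⟩, ⟨-4, -4⟩, ⟨8, -4⟩, ⟨0, 0⟩, ⟨0, 0⟩, ⟨0, 0⟩],
    ![⟨32, -16⟩, ⟨-16, 32⟩, ⟨-16, -16⟩, ⟨32, -16⟩, ⟨-16, 32⟩, ⟨-16, -16⟩, ⟨0, 0⟩, ⟨8, -16⟩, ⟨8, 8⟩, ⟨-16, 8⟩, ⟨0, 0⟩, ⟨0, 0⟩, ⟨0, 0⟩],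
    ![⟨-6, 12⟩, ⟨6, -12⟩, ⟨-6, 12⟩, ⟨6, -12⟩, ⟨-6, 12⟩, ⟨6, -12⟩, ⟨-6, 0⟩, ⟨0, 0⟩, ⟨0, 0⟩, ⟨0, 0⟩, ⟨0, 0⟩, ⟨0, 0⟩, ⟨0, 0⟩],
    ![⟨6, -12⟩, ⟨-6, 12⟩, ⟨6, -12⟩, ⟨-6, 12⟩, ⟨6, -12⟩, ⟨-6, 12⟩, ⟨-6, 0⟩, ⟨0, 0⟩, ⟨0, 0⟩, ⟨0, 0⟩, ⟨0, 0⟩, ⟨0, 0⟩, ⟨0, 0⟩],
    ![⟨16, 16⟩, ⟨16, -32⟩, ⟨-32, 16⟩, ⟨16, 16⟩, ⟨16, -32⟩, ⟨-32, 16⟩, ⟨0, 0⟩, ⟨4, -8⟩, ⟨-8, 4⟩, ⟨4, 4⟩, ⟨0, 0⟩, ⟨0, 0⟩, ⟨0, 0⟩],
    ![⟨16, 16⟩, ⟨16, -32⟩, ⟨-32, 16⟩, ⟨16, 16⟩, ⟨16, -32⟩, ⟨-32, 16⟩, ⟨0, 0⟩, ⟨-8, 16⟩, ⟨16, -8⟩, ⟨-8, -8⟩, ⟨0, 0⟩, ⟨0, 0⟩, ⟨0, 0⟩],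
    ![⟨20, -10⟩, ⟨10, -20⟩, ⟨-10, -10⟩, ⟨-20, 10⟩, ⟨-10, 20⟩, ⟨10, 10⟩, ⟨0, 0⟩, ⟨0, 0⟩, ⟨0, 0⟩, ⟨0, 0⟩, ⟨2, -4⟩, ⟨2, 2⟩, ⟨-4, 2⟩],
    ![⟨20, -10⟩, ⟨10, -20⟩, ⟨-10, -10⟩, ⟨-20, 10⟩, ⟨-10, 20⟩, ⟨10, 10⟩, ⟨0, 0⟩, ⟨0, 0⟩, ⟨0, 0⟩, ⟨0, 0⟩, ⟨-10, 20⟩, ⟨-10, -10⟩, ⟨20, -10⟩]]

def g : Fin 11 → K := ![⟨720, 0⟩, ⟨40, -20⟩, ⟨8, -4⟩, ⟨10, 10⟩, ⟨5, 5⟩, ⟨20, -40⟩, ⟨-20, 40⟩, ⟨20, -10⟩, ⟨10, -5⟩, ⟨20, 20⟩, ⟨4, 4⟩]

def j : Fin 11 → ℕ := ![0, 1, 1, 2, 2, 3, 3, 4, 4, 5, 5]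

def x : Fin 11 → ℤ := ![0, 0, -1, 0, -1, 0, -1, -1, 0, -1, 0]

theorem eigK : ∀ e k, ∑ l, (Q k l : K) * W e l =
    ((2 * j e + 12 * x e : ℤ) : K) * ⟨-1, 2⟩ * W e k := by decide +kernel

theorem decK : ∀ (i : Fin 7) k, ∑ e, g e * ⟨0, 1⟩ ^ (j e * (6 - i.1)) * W e k =
    if k.1 = i.1 % 6 then 4320 else 0 := by decide +kernel

def a (i : ℕ) : Fin 102 := ⟨i % 6, by omega⟩

theorem clf : ∀ (i : Fin 7) (u : Fin 102), (cl u).1 = i.1 % 6 ↔ u = a i := by decide +kernel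

noncomputable def ζ : ℂ := Complex.exp (Real.pi / 3 * Complex.I)

theorem hζ : 2 * ζ - 1 = √3 * Complex.I := by
  have : ζ = Complex.exp ((Real.pi / 3 : ℝ) * Complex.I) := by rw [ζ]; push_cast; rfl
  rw [this, Complex.exp_mul_I, ← Complex.ofReal_cos, ← Complex.ofReal_sin, Real.cos_pi_div_three,
    Real.sin_pi_div_three]
  push_cast
  ring

theorem s3 : ((√3 : ℝ) : ℂ) ^ 2 = 3 := by exact_mod_cast Real.sq_sqrt (by norm_num : (0 : ℝ) ≤ 3)

noncomputable def φ : K →ₐ[ℤ] ℂ := QuadraticAlgebra.lift ⟨ζ, by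
  simp only [neg_smul, one_smul]
  linear_combination (2 * ζ - 1 + √3 * Complex.I) / 4 * hζ + Complex.I ^ 2 / 4 * s3 +
    3 / 4 * Complex.I_sq⟩

theorem φ_mk (p q : ℤ) : φ ⟨p, q⟩ = p + q * ζ := by simp [φ, QuadraticAlgebra.lift]

def S : Matrix (Fin 102) (Fin 102) ℂ := fun u v => Z u v

noncomputable def w (e : Fin 11) (u : Fin 102) : ℂ := φ (W e (cl u))

theorem eig (e : Fin 11) :
    S *ᵥ w e = ((2 * j e + 12 * x e : ℤ) * (√3 * Complex.I) : ℂ) • w e := by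
  funext v
  have := congrArg φ (eigK e (cl v))
  simp only [map_sum, map_mul, map_intCast, φ_mk] at this
  rw [Pi.smul_apply, smul_eq_mul, ← hζ, w, mulVec, dotProduct,
    ← sum_fiberwise (s := univ) (g := cl)]
  refine Eq.trans (sum_congr rfl fun k _ => ?_) (this.trans (by push_cast; ring))
  rw [← cnt, Int.cast_sum, sum_mul]
  exact sum_congr rfl fun u hu => by rw [w, (mem_filter.1 hu).2]; rfl

noncomputable def t0 : ℝ := Real.pi / (6 * √3)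

theorem U_w (e : Fin 11) : NormedSpace.exp ((t0 : ℂ) • S) *ᵥ w e = ζ ^ j e • w e := by
  rw [exp_eig _ _ (j e * (Real.pi / 3 * Complex.I) + x e * (2 * Real.pi * Complex.I)),
    Complex.exp_add, Complex.exp_int_mul_two_pi_mul_I, mul_one, Complex.exp_nat_mul, ζ]
  rw [smul_mulVec, eig, smul_smul]
  congr 1
  have : ((√3 : ℝ) : ℂ) ≠ 0 := fun h => by simpa [h] using s3
  rw [t0]
  push_cast
  field_simp
  ring

theorem dec (i : Fin 7) : (4320 : ℂ) • (Pi.single (a i) 1 : Fin 102 → ℂ) =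
    ∑ e, (φ (g e) * ζ ^ (j e * (6 - i.1))) • w e := by
  funext u
  have := congrArg φ (decK i (cl u))
  simp only [map_sum, map_mul, map_pow, φ_mk, clf, apply_ite φ, map_ofNat, map_zero] at this
  simp only [Finset.sum_apply, Pi.smul_apply, smul_eq_mul, w, Pi.single_apply, mul_ite, mul_one,
    mul_zero]
  rw [← this]
  simp

theorem step (i : ℕ) : NormedSpace.exp ((t0 : ℂ) • S) *ᵥ Pi.single (a (i + 1)) 1 =
    Pi.single (a i) 1 := by
  have h := Nat.mod_lt i (by norm_num : 0 < 6)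
  have e1 : a (i + 1) = a (⟨i % 6 + 1, by omega⟩ : Fin 7) := Fin.ext (by simp [a])
  have e2 : a i = a (⟨i % 6, by omega⟩ : Fin 7) := Fin.ext (by simp [a])
  apply smul_right_injective _ (by norm_num : (4320 : ℂ) ≠ 0)
  simp only
  rw [← mulVec_smul, e1, e2, dec, dec, mulVec_sum]
  refine sum_congr rfl fun e _ => ?_
  rw [mulVec_smul, U_w, smul_smul, mul_assoc, ← pow_add,
    show 6 - i % 6 = 6 - (i % 6 + 1) + 1 by omega, mul_add, mul_one]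

theorem mst (m i : ℕ) : NormedSpace.exp (((m * t0 : ℝ) : ℂ) • S) *ᵥ Pi.single (a (i + m)) 1 =
    Pi.single (a i) 1 := by
  rw [Complex.ofReal_mul, Complex.ofReal_natCast, mul_smul, Nat.cast_smul_eq_nsmul,
    Matrix.exp_nsmul]
  induction m with
  | zero => rw [pow_zero, one_mulVec, add_zero]
  | succ m ih => rw [pow_succ, ← mulVec_mulVec, ← add_assoc, step, ih]

theorem all (u v : Fin 102) (hu : u.1 < 6) (hv : v.1 < 6) : ∃ t : ℝ,
    NormedSpace.exp ((t : ℂ) • S) *ᵥ Pi.single u 1 = Pi.single v 1 := by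
  have := mst (u.1 + 6 - v.1) v.1
  rw [show a (v.1 + (u.1 + 6 - v.1)) = u from Fin.ext (by simp only [a]; omega),
    show a v.1 = v from Fin.ext (by simp only [a]; omega)] at this
  exact ⟨_, this⟩

end Pool.Agent.H.MP_3865e9_co.A
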